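import Mathlib
import Pool.Agent.Lib.helper13.Inter
import Pool.Agent.Lib.helper13.Cyc

set_option autoImplicit false

namespace Pool.Agent.Results.MP_9d2565_co.Interlace

open Polynomial Finset H13Cone

/-- The descent positions of a permutation of `n + 1` letters; `k : Fin n` stands for the
position `k + 1`. -/
def des {n : ℕ} (σ : Equiv.Perm (Fin (n + 1))) : Finset (Fin n) :=
  univ.filter fun k => σ k.succ < σ k.castSucc

/-- `e lam n` is the polynomial `e_{n+1}(t) = E_{n+1}(lam 1 * t, …, lam n * t)`. -/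
noncomputable def e (lam : ℕ → ℝ) (n : ℕ) : ℝ[X] :=
  ∑ σ : Equiv.Perm (Fin (n + 1)), ∏ k ∈ des σ, (C (lam (k + 1)) * X)

/-- The roots with multiplicity, in decreasing order. -/
noncomputable def rootList (p : ℝ[X]) : List ℝ := p.roots.sort (· ≥ ·)

/-- `f ⪯ g`. -/
def Interl (f g : ℝ[X]) : Prop :=
  f ≠ 0 ∧ g ≠ 0 ∧ f.Splits ∧ g.Splits ∧ (∀ r ∈ f.roots, r ≤ 0) ∧ (∀ r ∈ g.roots, r ≤ 0) ∧
  (∀ (i : ℕ) (h1 : i < (rootList f).length) (h2 : i < (rootList g).length),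
    (rootList f)[i] ≤ (rootList g)[i]) ∧
  ∀ (i : ℕ) (h1 : i < (rootList f).length) (h2 : i + 1 < (rootList g).length),
    (rootList g)[i + 1] ≤ (rootList f)[i]

noncomputable def E (x : ℕ → ℂ) (n : ℕ) (i : Fin (n + 1)) : ℂ :=
  ∑ σ : Equiv.Perm (Fin (n + 1)), if σ (Fin.last n) = i then ∏ k ∈ des σ, x (k + 1) else 0

theorem sum_E (x : ℕ → ℂ) (n : ℕ) (c : Fin (n + 1) → ℂ) : ∑ i, c i * E x n i =
    ∑ σ : Equiv.Perm (Fin (n + 1)), c (σ (Fin.last n)) * ∏ k ∈ des σ, x (k + 1) := by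
  simp only [E, mul_sum]
  rw [sum_comm]
  refine sum_congr rfl fun σ _ => ?_
  simp

theorem wt_ext (x : ℕ → ℂ) (n : ℕ) (i : Fin (n + 2)) (σ : Equiv.Perm (Fin (n + 1))) :
    ∏ k ∈ des (ext (Fin.last (n + 1)) i σ), x (k + 1) =
      (if i ≤ (σ (Fin.last n)).castSucc then x (n + 1) else 1) * ∏ k ∈ des σ, x (k + 1) := by
  have h1 : ∀ k : Fin (n + 1), ext (Fin.last (n + 1)) i σ k.castSucc = i.succAbove (σ k) :=
    fun k => by rw [← ext_succAbove (Fin.last (n + 1)), Fin.succAbove_last]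
  simp only [des, prod_filter]
  rw [Fin.prod_univ_castSucc, mul_comm]
  congr 1
  · rw [Fin.succ_last, ext_at, h1]
    simp only [Fin.lt_succAbove_iff_le_castSucc, Fin.val_last]
  · refine prod_congr rfl fun k _ => ?_
    rw [Fin.succ_castSucc, h1, h1]
    simp only [Fin.succAbove_lt_succAbove_iff, Fin.val_castSucc]

theorem E_succ (x : ℕ → ℂ) (n : ℕ) (i : Fin (n + 2)) :
    E x (n + 1) i = ∑ j : Fin (n + 1), (if i ≤ j.castSucc then x (n + 1) else 1) * E x n j := by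
  rw [sum_E, E, sum_perm (Fin.last (n + 1)), sum_eq_single i]
  · exact sum_congr rfl fun σ _ => by rw [ext_at, if_pos rfl, wt_ext]
  · exact fun j _ hj => sum_eq_zero fun σ _ => by rw [ext_at, if_neg hj]
  · simp

noncomputable def h (x : ℕ → ℂ) : ℕ → ℕ → ℂ
  | 0, _ => 1
  | n + 1, k => ∑ m ∈ range (n + 1), (if m < k then x (n + 1) else 1) * h x n m

theorem E_eq (x : ℕ → ℂ) (n : ℕ) : ∀ i : Fin (n + 1), E x n i = h x n (n - i) := by
  induction n with
  | zero =>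
    intro i
    have : ∀ a : Fin (0 + 1), a = i := fun a => Fin.ext (by omega)
    simp [E, h, des, this]
  | succ n ih =>
    intro i
    rw [E_succ, h, ← sum_range_reflect, ← Fin.sum_univ_eq_sum_range
      (fun j => (if n + 1 - 1 - j < n + 1 - i then x (n + 1) else 1) * h x n (n + 1 - 1 - j))]
    refine sum_congr rfl fun j _ => ?_
    rw [ih j]
    congr 2
    have := j.2; have := i.2
    simp only [Fin.le_def, Fin.val_castSucc, eq_iff_iff]
    omega

theorem chain_h (x : ℕ → ℂ) (θ : ℝ) (h0 : 0 ≤ θ) (hθ : θ < Real.pi) (hx : ∀ k, HA (x (k + 1)) θ)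
    (n : ℕ) : ∃ α : ℕ → ℝ, (∀ m ≤ n, HA (h x n m) (α m)) ∧
      (∀ k l, k ≤ l → l ≤ n → α k ≤ α l) ∧ α n ≤ α 0 + θ := by
  induction n with
  | zero => exact ⟨fun _ => 0, fun _ _ => HA_one, fun _ _ _ _ => le_rfl, by linarith⟩
  | succ n ih =>
    obtain ⟨α, h1, h2, h3⟩ := ih
    obtain ⟨γ, g1, g2, g3, -⟩ := cyc_step n (hx n) hθ h1 h2 h3
    exact ⟨γ, g1, g2, g3.le⟩

theorem aeval_e (lam : ℕ → ℝ) (n : ℕ) (t : ℂ) :
    aeval t (e lam n) = ∑ m ∈ range (n + 1), h (fun k => lam k * t) n m := by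
  have := sum_E (fun k => lam k * t) n fun _ => 1
  simp only [one_mul, E_eq] at this
  rw [← sum_range_reflect, ← Fin.sum_univ_eq_sum_range
    (fun j => h (fun k => lam k * t) n (n + 1 - 1 - j))]
  simp only [Nat.add_sub_cancel, this, e, map_sum, map_prod, map_mul, aeval_C, aeval_X]
  rfl

theorem args (lam : ℕ → ℝ) (hl : ∀ k, 0 < lam (k + 1)) (n : ℕ) (t : ℂ) (ht : 0 < t.im) :
    ∃ α β, HA (aeval t (e lam n)) α ∧ HA (aeval t (e lam (n + 1))) β ∧ α ≤ β ∧
      β ≤ α + Real.pi := by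
  obtain ⟨θ, h0, h1, h2⟩ := exists_HA ht
  obtain ⟨α, a1, a2, a3⟩ := chain_h (fun k => lam k * t) θ h0.le h1 (fun k => h2.smul (hl k))
    (n + 1)
  obtain ⟨β, b1, b2, b3⟩ : InA (aeval t (e lam (n + 1))) (α 0) (α (n + 1)) := by
    rw [aeval_e]
    exact InA.sum (by simp) (fun m hm => by
      have := mem_range.1 hm
      exact (a1 m (by omega)).inA (a2 _ _ (by omega) (by omega)) (a2 _ _ (by omega) le_rfl))
      (by linarith)
  refine ⟨α 0, β, ?_, b3, b1, by linarith⟩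
  have := a1 0 (by omega)
  rw [aeval_e]
  simpa [h] using this

theorem e_pos (lam : ℕ → ℝ) (hl : ∀ k, 0 < lam (k + 1)) (n : ℕ) (x : ℝ) (hx : 0 < x) :
    0 < (e lam n).eval x := by
  rw [e, eval_finsetSum]
  refine sum_pos (fun σ _ => ?_) univ_nonempty
  rw [eval_prod]
  exact prod_pos fun k _ => by simpa using mul_pos (hl k) hx

theorem e_splits (lam : ℕ → ℝ) (hl : ∀ k, 0 < lam (k + 1)) (n : ℕ) : (e lam n).Splits :=
  splits_of_real _ (real_of_upper _ fun t ht => by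
    obtain ⟨α, β, h1, -⟩ := args lam hl n t ht
    exact h1.ne_zero)

theorem result (lam : ℕ → ℝ) (hl : ∀ k, 1 ≤ k → 0 < lam k) (n : ℕ) :
    Interl (e lam n) (e lam (n + 1)) := by
  have hl' : ∀ k, 0 < lam (k + 1) := fun k => hl _ (by omega)
  have hne : ∀ n, e lam n ≠ 0 := fun n h0 => by simpa [h0] using e_pos lam hl' n 1 one_pos
  have := chain (e_splits lam hl' n) (e_splits lam hl' (n + 1))
    (lead_pos (e_splits lam hl' n) (e_pos lam hl' n))
    (lead_pos (e_splits lam hl' _) (e_pos lam hl' _)) (args lam hl' n)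
  exact ⟨hne _, hne _, e_splits lam hl' _, e_splits lam hl' _,
    fun r hr => root_nonpos (e_pos lam hl' _) hr, fun r hr => root_nonpos (e_pos lam hl' _) hr,
    this.1, this.2⟩

end Pool.Agent.Results.MP_9d2565_co.Interlace
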